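import Mathlib
import Pool.Agent.H16.ND.Total

set_option autoImplicit false

namespace Pool.Agent.Results.MP_0f1375_an.FirstDerivative

open MeasureTheory

/-- `|t|^p` is convex on the line for `p ≥ 1`. -/
lemma convex_abs_rpow (p : ℝ) (hp : 1 ≤ p) : ConvexOn ℝ Set.univ (fun t : ℝ => |t| ^ p) := by
  refine ⟨convex_univ, ?_⟩
  intro x _ y _ a b ha hb hab
  have h1 : |a • x + b • y| ≤ a • |x| + b • |y| := by
    simp only [smul_eq_mul]
    calc |a * x + b * y| ≤ |a * x| + |b * y| := abs_add_le _ _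
      _ = a * |x| + b * |y| := by rw [abs_mul, abs_mul, abs_of_nonneg ha, abs_of_nonneg hb]
  exact (Real.rpow_le_rpow (abs_nonneg _) h1 (by linarith)).trans
    ((convexOn_rpow hp).2 (Set.mem_Ici.2 (abs_nonneg x)) (Set.mem_Ici.2 (abs_nonneg y)) ha hb hab)

/-- Q1 for `k = 1`: every `n ≥ 2`, all nodes, every `1 ≤ p < ∞`; and more generally the same
comparison for every even convex function in place of `|t|^p`, on every interval whose end points
are nodes or `±1`. -/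
theorem result :
    ∀ (n : ℕ) (xs : Fin n → ℝ), 2 ≤ n → Function.Injective xs →
      (∀ i, xs i ∈ Set.Icc (-1 : ℝ) 1) →
      ∀ f : ℝ → ℝ, ContDiff ℝ ((n - 1 : ℕ) : WithTop ℕ∞) f →
        LipschitzOnWith 1 (iteratedDeriv (n - 1) f) (Set.Icc (-1 : ℝ) 1) →
        (∀ i, f (xs i) = 0) →
        (∀ p : ℝ, 1 ≤ p →
          ∫ x in (-1 : ℝ)..1, |iteratedDeriv 1 f x| ^ p ≤
            ∫ x in (-1 : ℝ)..1,
              |iteratedDeriv 1 (fun y => (∏ i, (y - xs i)) / (n.factorial : ℝ)) x| ^ p) ∧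
        (∀ Ψ : ℝ → ℝ, ConvexOn ℝ Set.univ Ψ → (∀ t, Ψ (-t) = Ψ t) →
          ∀ a b : ℝ, a ≤ b → (a = -1 ∨ a = 1 ∨ ∃ i, xs i = a) →
            (b = -1 ∨ b = 1 ∨ ∃ i, xs i = b) →
          ∫ x in a..b, Ψ (iteratedDeriv 1 f x) ≤
            ∫ x in a..b,
              Ψ (iteratedDeriv 1 (fun y => (∏ i, (y - xs i)) / (n.factorial : ℝ)) x)) := by
  intro n xs hn hx hx1 f hf hlip h0
  obtain ⟨q, rfl⟩ : ∃ q, n = q + 2 := ⟨n - 2, by omega⟩
  have main : ∀ Ψ : ℝ → ℝ, ConvexOn ℝ Set.univ Ψ → (∀ t, Ψ (-t) = Ψ t) →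
      ∀ a b : ℝ, a ≤ b → (a = -1 ∨ a = 1 ∨ ∃ i, xs i = a) →
        (b = -1 ∨ b = 1 ∨ ∃ i, xs i = b) →
      ∫ x in a..b, Ψ (iteratedDeriv 1 f x) ≤
        ∫ x in a..b,
          Ψ (iteratedDeriv 1 (fun y => (∏ i, (y - xs i)) / ((q + 2).factorial : ℝ)) x) := by
    intro Ψ hconv heven a b hab ha hb
    simp only [iteratedDeriv_one]
    exact Pool.Agent.H16.ND.total_convex Ψ hconv heven q xs hx hx1 f hf hlip h0 a b hab ha hb
  refine ⟨?_, main⟩
  intro p hp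
  exact main (fun t => |t| ^ p) (convex_abs_rpow p hp) (fun t => by simp only [abs_neg]) (-1) 1
    (by norm_num) (Or.inl rfl) (Or.inr (Or.inl rfl))

end Pool.Agent.Results.MP_0f1375_an.FirstDerivative
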