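import Mathlib
import Pool.Agent.H72.NP.Chain

set_option autoImplicit false

/-!
# `L_2` extremality of the nodal polynomial for the upper half of the derivatives

For `p = 2`, all `n ≥ 2`, all nodes in `[-1,1]` and all `k` with `(n - 1) / 2 ≤ k ≤ n - 1` (and
`k = 1`, where we quote the library) the nodal polynomial is extremal.

Proof: if `u`, `v` vanish at the nodes and have nonnegative `n`-th derivative then
`∫ u^(k) v^(k) ≥ 0`; this is applied to `ω - f` and `ω + f`. Write `u = (x - b) U`, `v = (x - b) V`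
with the smallest node `b`; then
`∫ w u^(j) v^(j) = ∫ w (x-b)² U^(j) V^(j) + j ∫ ((j-1) w - w' (x-b)) U^(j-1) V^(j-1) + boundary`.
Splitting off all nodes from the left in this way produces weights `om B (k-j) (k-|B|)`
(`B` = the nodes already removed), which satisfy a second recursion with nonnegative terms as long
as `|B| + j + 1 ≤ 2 k`; this holds in the whole chain when `n ≤ 2 k + 1`.
-/

namespace Pool.Agent.Results.MP_0f1375_an.SquareUpperHalf

open MeasureTheory Polynomial
open Pool.H72.NP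
open Pool.H611.BS (Mon)

/-- **Q1 for `p = 2` and the derivatives of order `k ≥ (n - 1) / 2`** (all `n`, all nodes), together
with the first derivative `k = 1` (library). In particular Q1 for `p = 2`, all `k` and `n ≤ 5`. -/
theorem result :
    ∀ (n : ℕ) (xs : Fin n → ℝ), 2 ≤ n → Function.Injective xs →
      (∀ i, xs i ∈ Set.Icc (-1 : ℝ) 1) →
      ∀ k : ℕ, 1 ≤ k → k ≤ n - 1 → (k = 1 ∨ n ≤ 2 * k + 1) →
      ∀ f : ℝ → ℝ, ContDiff ℝ ((n - 1 : ℕ) : WithTop ℕ∞) f →
        LipschitzOnWith 1 (iteratedDeriv (n - 1) f) (Set.Icc (-1 : ℝ) 1) →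
        (∀ i, f (xs i) = 0) →
        ∫ x in (-1 : ℝ)..1, |iteratedDeriv k f x| ^ (2 : ℝ) ≤
          ∫ x in (-1 : ℝ)..1,
            |iteratedDeriv k (fun y => (∏ i, (y - xs i)) / (n.factorial : ℝ)) x| ^ (2 : ℝ) := by
  intro n xs hn hx hx1 k hk1 hk2 hcase f hf hlip h0
  have e2 : ∀ t : ℝ, |t| ^ (2 : ℝ) = t ^ 2 := fun t => by
    rw [Real.rpow_two, sq_abs]
  simp_rw [e2]
  by_cases hk : k = 1 ∧ 4 ≤ n
  · obtain ⟨rfl, _⟩ := hk
    obtain ⟨q, rfl⟩ : ∃ q, n = q + 2 := ⟨n - 2, by omega⟩
    simp_rw [iteratedDeriv_one]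
    exact Pool.H611.BS.partD q xs hx hx1 f hf hlip h0
  have hcase' : n ≤ 2 * k + 1 := by omega
  obtain ⟨q, rfl⟩ : ∃ q, n = q + 2 := ⟨n - 2, by omega⟩
  set ω : ℝ → ℝ := fun y => (∏ i, (y - xs i)) / ((q + 2 : ℕ).factorial : ℝ) with hω
  have hωc : ContDiff ℝ ((q + 1 : ℕ) : WithTop ℕ∞) ω := by
    rw [hω]
    apply ContDiff.div_const
    apply contDiff_prod
    intro i _
    fun_prop
  have hω0 : ∀ i, ω (xs i) = 0 := by
    intro i
    simp only [hω]
    rw [Finset.prod_eq_zero (Finset.mem_univ i) (sub_self _), zero_div]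
  have hωd : ∀ y, iteratedDeriv (q + 1) ω y = y - (∑ i, xs i) / (q + 2) := fun y =>
    Pool.H611.BS.omega_deriv q xs y
  have hf' : ContDiff ℝ ((q + 1 : ℕ) : WithTop ℕ∞) f := by simpa using hf
  have hlip' : LipschitzOnWith 1 (iteratedDeriv (q + 1) f) (Set.Icc (-1 : ℝ) 1) := by
    simpa using hlip
  have hfl : ∀ u ∈ Set.Icc (-1 : ℝ) 1, ∀ v ∈ Set.Icc (-1 : ℝ) 1,
      |iteratedDeriv (q + 1) f u - iteratedDeriv (q + 1) f v| ≤ |u - v| := by
    intro u hu v hv
    have := hlip'.dist_le_mul u hu v hv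
    simpa [Real.dist_eq] using this
  have monP : Mon (q + 1) (fun s => ω s - f s) := by
    refine ⟨hωc.sub hf', ?_⟩
    intro u hu v hv huv
    have e : ∀ s, iteratedDeriv (q + 1) (fun s => ω s - f s) s
        = iteratedDeriv (q + 1) ω s - iteratedDeriv (q + 1) f s := fun s =>
      iteratedDeriv_fun_sub hωc.contDiffAt hf'.contDiffAt
    rw [e, e, hωd, hωd]
    have := hfl u hu v hv
    rw [abs_of_nonpos (show u - v ≤ 0 by linarith)] at this
    have h3 := abs_le.mp this
    linarith [h3.1, h3.2]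
  have monQ : Mon (q + 1) (fun s => ω s + f s) := by
    refine ⟨hωc.add hf', ?_⟩
    intro u hu v hv huv
    have e : ∀ s, iteratedDeriv (q + 1) (fun s => ω s + f s) s
        = iteratedDeriv (q + 1) ω s + iteratedDeriv (q + 1) f s := fun s =>
      iteratedDeriv_fun_add hωc.contDiffAt hf'.contDiffAt
    rw [e, e, hωd, hωd]
    have := hfl u hu v hv
    rw [abs_of_nonpos (show u - v ≤ 0 by linarith)] at this
    have h3 := abs_le.mp this
    linarith [h3.1, h3.2]
  have hpair : Pair (q + 2 - 1) (Finset.univ.image xs) (fun s => ω s - f s)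
      (fun s => ω s + f s) := by
    refine ⟨?_, by simpa using monP, by simpa using monQ, ?_, ?_, ?_⟩
    · rw [Finset.card_image_of_injective _ hx]; simp
    · intro z hz
      obtain ⟨i, _, rfl⟩ := Finset.mem_image.1 hz
      simp [hω0, h0]
    · intro z hz
      obtain ⟨i, _, rfl⟩ := Finset.mem_image.1 hz
      simp [hω0, h0]
    · intro z hz
      obtain ⟨i, _, rfl⟩ := Finset.mem_image.1 hz
      exact hx1 i
  have key := upper (q + 2) k (by omega) hk2 hcase' _ _ _ hpair
  have hkq : k ≤ q + 1 := by omega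
  have hωk : ContDiff ℝ (k : WithTop ℕ∞) ω := hωc.of_le (by exact_mod_cast hkq)
  have hfk : ContDiff ℝ (k : WithTop ℕ∞) f := hf'.of_le (by exact_mod_cast hkq)
  have e : ∀ s, PP k (fun s => ω s - f s) (fun s => ω s + f s) s
      = (iteratedDeriv k ω s) ^ 2 - (iteratedDeriv k f s) ^ 2 := by
    intro s
    unfold PP
    rw [iteratedDeriv_fun_sub hωk.contDiffAt hfk.contDiffAt,
      iteratedDeriv_fun_add hωk.contDiffAt hfk.contDiffAt]
    ring
  simp_rw [e] at key
  have cω : Continuous (fun s => (iteratedDeriv k ω s) ^ 2) :=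
    (hωk.continuous_iteratedDeriv k le_rfl).pow 2
  have cf : Continuous (fun s => (iteratedDeriv k f s) ^ 2) :=
    (hfk.continuous_iteratedDeriv k le_rfl).pow 2
  rw [intervalIntegral.integral_sub (cω.intervalIntegrable _ _) (cf.intervalIntegrable _ _)] at key
  linarith

end Pool.Agent.Results.MP_0f1375_an.SquareUpperHalf
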